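import Pool.Agent.U435.Star.Star

/-!
# The case of stars

If `T` is the star with `k` edges, every `k`-tree-connected simple graph whose number of edges is
divisible by `k` has a `T`-edge-decomposition.

Proof. By the theorem of the starting library `Pool.Agent.H239R2.Cover.orientation_of_packing`, a graph
with `k` edge-disjoint spanning trees has an orientation in which all out-degrees are divisible by
`k`. The edges leaving a vertex are grouped into sets of size `k`.
-/

set_option autoImplicit false

namespace Pool.Agent.Results.MP_1c8ed6_co.StarCase

/-- For every finite star `T` with `m` edges (a tree with a vertex `c` adjacent to all others) and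
every finite simple graph `G` containing `m` edge-disjoint spanning trees with `m` dividing its edge
count, the edges of `G` split into edge-disjoint subgraphs each isomorphic to `T`. -/
theorem result :
    ∀ {V : Type} [Fintype V] [DecidableEq V] (G : SimpleGraph V) [DecidableRel G.Adj]
      {W : Type} [Fintype W] [DecidableEq W] (T : SimpleGraph W) [DecidableRel T.Adj],
      T.IsTree → (∃ c : W, ∀ w : W, w ≠ c → T.Adj c w) →
      (∃ F : Fin T.edgeFinset.card → SimpleGraph V,
          (∀ i, F i ≤ G ∧ (F i).IsTree) ∧
          Pairwise (fun i j => Disjoint (F i) (F j))) →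
      T.edgeFinset.card ∣ G.edgeFinset.card →
      ∃ (n : ℕ) (H : Fin n → G.Subgraph),
        (∀ i, Nonempty (T ≃g (H i).coe)) ∧
        Pairwise (fun i j => Disjoint (H i).edgeSet (H j).edgeSet) ∧
        (∀ e ∈ G.edgeSet, ∃ i, e ∈ (H i).edgeSet) := by
  intro V _ _ G _ W _ _ T _ hT hc hF hd
  obtain ⟨c, hc⟩ := hc
  obtain ⟨F, hF1, hF2⟩ := hF
  exact Pool.Agent.U435.Star.star_decomposition G T hT c hc F
    (fun i => ⟨(hF1 i).1, (hF1 i).2.connected⟩) hF2 hd

end Pool.Agent.Results.MP_1c8ed6_co.StarCase
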